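import Mathlib
import Pool.Agent.Helper8.Classify.Defs
import Pool.Agent.Helper8.Transfer.CorrW

/-!
# Correlations of the glued function (module CL-G2)
-/

namespace Pool.Agent.Helper8.Classify

open Finset Filter Topology Pool.Agent.Helper8.Dilation Pool.Agent.Helper8.Order
  Pool.Agent.Helper8.Transfer

lemma gl_eq (c : ℕ → ℕ → ℝ) (δ : ℕ → ℝ) (n i j : ℕ) (hI : I n = i) (hJ : J n = j) (κ : ℝ)
    (hκ : ((j - i * i : ℕ) : ℝ) / (2 * (i : ℝ) + 1) = κ) :
    gl c δ n = if ⌊δ i * Real.log n⌋ = ⌊δ i * Real.log n - κ⌋ then c i n else c (i + 1) n := by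
  unfold gl
  rw [hI, hJ, hκ]

/-- Local structure of `gl`. -/
lemma gl_window (c : ℕ → ℕ → ℝ) (δ : ℕ → ℝ) (ε : ℝ) (hε : 0 < ε) (hε1 : ε ≤ 1) (C : ℕ) (i0 : ℕ) :
    ∀ᶠ N : ℕ in atTop, ∃ i : ℕ, i0 ≤ i ∧ 4 ^ (i ^ 4) ≤ N ∧ N ≤ 4 ^ ((i + 1) ^ 4 + i) ∧
      ∃ κ : ℝ, 0 ≤ κ ∧ κ + 1 / (2 * (i : ℝ) + 1) ≤ 1 ∧ ∃ M : ℕ, ∀ n : ℕ, ε * N ≤ n → n ≤ C * N →
        gl c δ n = wt (δ i) κ (κ + 1 / (2 * (i : ℝ) + 1)) M n * c i n
          + (1 - wt (δ i) κ (κ + 1 / (2 * (i : ℝ) + 1)) M n) * c (i + 1) n := by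
  obtain ⟨b, hb⟩ : ∃ b : ℕ, ((C : ℝ) + 1) / ε ≤ 4 ^ b := by
    obtain ⟨b, hb⟩ := pow_unbounded_of_one_lt (((C : ℝ) + 1) / ε) (show (1 : ℝ) < 4 by norm_num)
    exact ⟨b, hb.le⟩
  set i1 := max i0 b with hi1
  have hbig : ∀ᶠ N : ℕ in atTop, ((4 ^ (i1 ^ 4) : ℕ) : ℝ) + 1 ≤ ε * N := by
    have := (tendsto_natCast_atTop_atTop (R := ℝ)).const_mul_atTop hε
    exact this.eventually_ge_atTop _
  filter_upwards [hbig] with N hN
  have hNpos : (0 : ℝ) < N := by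
    by_contra hcon
    push Not at hcon
    have h0 : ε * (N : ℝ) ≤ 0 := mul_nonpos_of_nonneg_of_nonpos hε.le hcon
    have h1 : (0 : ℝ) ≤ ((4 ^ (i1 ^ 4) : ℕ) : ℝ) := by positivity
    linarith
  set n0 := ⌈ε * (N : ℝ)⌉₊ with hn0
  have hn0a : ε * N ≤ n0 := Nat.le_ceil _
  have hn0b : (n0 : ℝ) < ε * N + 1 := Nat.ceil_lt_add_one (by positivity)
  have hn0c : 4 ^ (i1 ^ 4) ≤ n0 := by
    have : ((4 ^ (i1 ^ 4) : ℕ) : ℝ) ≤ n0 := by linarith
    exact_mod_cast this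
  have hn0N : n0 ≤ N := by
    apply Nat.ceil_le.mpr
    nlinarith
  have hn01 : 1 ≤ n0 := le_trans (Nat.one_le_pow _ _ (by norm_num)) hn0c
  set t := J n0 with ht
  obtain ⟨ht1, ht2⟩ := J_spec n0 hn01
  have hti : i1 * i1 ≤ t := by
    apply J_ge
    calc 4 ^ (i1 * i1 * (i1 * i1)) = 4 ^ (i1 ^ 4) := by congr 1; ring
      _ ≤ n0 := hn0c
  set i := Nat.sqrt t with hi
  have hi_a : i * i ≤ t := Nat.sqrt_le t
  have hi_b : t < (i + 1) * (i + 1) := Nat.lt_succ_sqrt t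
  have hi1i : i1 ≤ i := Nat.le_sqrt.mpr hti
  have hi0i : i0 ≤ i := (le_max_left _ _).trans hi1i
  have hbi : b ≤ i := (le_max_right _ _).trans hi1i
  have hNle : (N : ℝ) ≤ n0 / ε := by rw [le_div_iff₀ hε]; linarith
  have hinv : 1 / ε ≤ 4 ^ b := by
    refine le_trans ?_ hb
    apply div_le_div_of_nonneg_right _ hε.le
    have : (0 : ℝ) ≤ C := by positivity
    linarith
  have hinvC : (C : ℝ) / ε ≤ 4 ^ b := by
    refine le_trans ?_ hb
    apply div_le_div_of_nonneg_right _ hε.le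
    linarith
  have hn0R : (n0 : ℝ) ≤ 4 ^ ((t + 1) * (t + 1)) := by exact_mod_cast ht2.le
  -- upper bound for `C * N`
  have hCN : ∀ n : ℕ, n ≤ C * N → n < 4 ^ ((t + 1 + 1) * (t + 1 + 1)) := by
    intro n hn
    have h1 : (n : ℝ) ≤ C * N := by exact_mod_cast hn
    have h2 : (n : ℝ) ≤ 4 ^ b * 4 ^ ((t + 1) * (t + 1)) := by
      calc (n : ℝ) ≤ C * N := h1
        _ ≤ C * (n0 / ε) := mul_le_mul_of_nonneg_left hNle (by positivity)
        _ = C / ε * n0 := by ring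
        _ ≤ 4 ^ b * 4 ^ ((t + 1) * (t + 1)) := mul_le_mul hinvC hn0R (by positivity) (by positivity)
    have h3 : (n : ℝ) < 4 ^ ((t + 1 + 1) * (t + 1 + 1)) := by
      refine lt_of_le_of_lt h2 ?_
      rw [← pow_add]
      apply pow_lt_pow_right₀ (by norm_num)
      have hit : i ≤ t := (Nat.le_mul_self i).trans hi_a
      have : (t + 1 + 1) * (t + 1 + 1) = (t + 1) * (t + 1) + 2 * t + 3 := by ring
      omega
    exact_mod_cast h3
  refine ⟨i, hi0i, ?_, ?_, ((t - i * i : ℕ) : ℝ) / (2 * i + 1), by positivity, ?_,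
    4 ^ ((t + 1) * (t + 1)), ?_⟩
  · calc 4 ^ (i ^ 4) = 4 ^ ((i * i) * (i * i)) := by congr 1; ring
      _ ≤ 4 ^ (t * t) := Nat.pow_le_pow_right (by norm_num) (Nat.mul_le_mul hi_a hi_a)
      _ ≤ n0 := ht1
      _ ≤ N := hn0N
  · have h1 : (N : ℝ) ≤ 4 ^ ((i + 1) ^ 4 + i) := by
      calc (N : ℝ) ≤ n0 / ε := hNle
        _ = 1 / ε * n0 := by ring
        _ ≤ 4 ^ b * 4 ^ ((t + 1) * (t + 1)) := mul_le_mul hinv hn0R (by positivity) (by positivity)
        _ = 4 ^ (b + (t + 1) * (t + 1)) := by rw [pow_add]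
        _ ≤ 4 ^ ((i + 1) ^ 4 + i) := by
            apply pow_le_pow_right₀ (by norm_num)
            have h2 : (t + 1) * (t + 1) ≤ ((i + 1) * (i + 1)) * ((i + 1) * (i + 1)) :=
              Nat.mul_le_mul hi_b hi_b
            have h3 : ((i + 1) * (i + 1)) * ((i + 1) * (i + 1)) = (i + 1) ^ 4 := by ring
            omega
    exact_mod_cast h1
  · rw [← add_div, div_le_one (by positivity)]
    have : t - i * i + 1 ≤ 2 * i + 1 := by
      have : (i + 1) * (i + 1) = i * i + 2 * i + 1 := by ring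
      omega
    exact_mod_cast this
  · intro n hn1 hn2
    have hnn0 : n0 ≤ n := Nat.ceil_le.mpr hn1
    have hJ1 : t ≤ J n := J_mono hnn0
    have hJ2 : J n ≤ t + 1 := J_lt n (t + 1) (by omega) (hCN n hn2)
    by_cases hM : n < 4 ^ ((t + 1) * (t + 1))
    · have hJ : J n = t := le_antisymm (J_lt n t (by omega) hM) hJ1
      have hI : I n = i := by unfold I; rw [hJ]
      rw [gl_eq c δ n i t hI hJ _ rfl]
      unfold wt
      rw [if_pos hM]
      split_ifs <;> ring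
    · have hM' := hM
      push Not at hM'
      have hJ : J n = t + 1 := le_antisymm hJ2 (J_ge n (t + 1) hM')
      have hκ : ((t - i * i : ℕ) : ℝ) / (2 * i + 1) + 1 / (2 * (i : ℝ) + 1)
          = ((t + 1 - i * i : ℕ) : ℝ) / (2 * i + 1) := by
        rw [← add_div]
        congr 1
        rw [show t + 1 - i * i = (t - i * i) + 1 by omega]
        push_cast; ring
      rw [hκ]
      by_cases hcase : t + 1 < (i + 1) * (i + 1)
      · have hI : I n = i := by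
          unfold I; rw [hJ]
          apply le_antisymm
          · exact Nat.lt_succ_iff.mp (Nat.sqrt_lt.mpr hcase)
          · exact Nat.le_sqrt.mpr (by omega)
        rw [gl_eq c δ n i (t + 1) hI hJ _ rfl]
        unfold wt
        rw [if_neg hM]
        split_ifs <;> ring
      · have hte : t + 1 = (i + 1) * (i + 1) := by omega
        have hI : I n = i + 1 := by
          unfold I; rw [hJ, hte, Nat.sqrt_eq]
        rw [gl_eq c δ n (i + 1) (t + 1) hI hJ 0 (by rw [hte, Nat.sub_self, Nat.cast_zero, zero_div])]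
        rw [sub_zero, if_pos rfl]
        have h1 : t + 1 - i * i = 2 * i + 1 := by
          have : (i + 1) * (i + 1) = i * i + (2 * i + 1) := by ring
          omega
        have h2 : ((t + 1 - i * i : ℕ) : ℝ) / (2 * i + 1) = 1 := by
          rw [h1]
          push_cast
          exact div_self (by positivity)
        unfold wt
        rw [if_neg hM, h2]
        have h3 : ⌊δ i * Real.log n⌋ ≠ ⌊δ i * Real.log n - 1⌋ := by
          rw [Int.floor_sub_one]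
          omega
        rw [if_neg h3]
        ring

/-- Evaluation on a dyadic block. -/
lemma gl_block (c : ℕ → ℕ → ℝ) (δ : ℕ → ℝ) (hc : ∀ i n, c i n = 1 ∨ c i n = -1)
    (slow : ∀ᶠ i : ℕ in atTop, 1 ≤ δ i ∧ δ i ≤ i) (w : ℕ → ℝ) (hw : Grow w) (S : Finset ℕ) (κ0 : ℝ)
    (hcor : ∀ ε : ℝ, 0 < ε → ∀ᶠ i : ℕ in atTop, ∀ x : ℕ, 4 ^ (i ^ 4) ≤ 3 * x →
      x ≤ 4 ^ ((i + 1) ^ 4 + i) → ∀ i' : ℕ, (i' = i ∨ i' = i + 1) →
      |∑ n ∈ Ioc 0 x, w n * (∏ s ∈ S, c i' (n + s) - κ0)| * ((i : ℝ) + 2) ≤ ε * x)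
    (ε : ℝ) (hε : 0 < ε) : ∀ᶠ N : ℕ in atTop, ∀ a0 : ℕ, N ≤ 3 * a0 → a0 ≤ N →
      |∑ n ∈ Ioc a0 N, w n * (∏ s ∈ S, gl c δ (n + s) - κ0)| ≤ ε * N := by
  classical
  set C1 : ℝ := 3 * (Real.log 6 + 1) + 1 with hC1
  have hlg0 : 0 ≤ Real.log 6 := Real.log_nonneg (by norm_num)
  have hC10 : 0 < C1 := by positivity
  -- enumerate `S`
  set k := S.card with hk
  set h : Fin k → ℕ := fun j => (S.equivFin.symm j : ℕ) with hh
  have hprod : ∀ g : ℕ → ℝ, ∏ s ∈ S, g s = ∏ j, g (h j) := by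
    intro g
    rw [← Finset.prod_coe_sort S g]
    exact (Fintype.prod_equiv S.equivFin.symm (fun j => g (h j)) (fun s => g s) (fun j => rfl)).symm
  set H : ℕ := ∑ j, h j with hH
  have hHj : ∀ j, h j ≤ H := fun j =>
    Finset.single_le_sum (f := h) (fun _ _ => Nat.zero_le _) (Finset.mem_univ j)
  set ε2 : ℝ := ε / (8 * (1 + C1)) with hε2
  have hε2pos : 0 < ε2 := by positivity
  obtain ⟨i0, hi0⟩ := Filter.eventually_atTop.mp (slow.and (hcor ε2 hε2pos))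
  filter_upwards [gl_window c δ (1 / 3) (by norm_num) (by norm_num) 2 i0, eventually_ge_atTop (H + 1),
    grow_small hw (2 * H * C1) (ε / 4) (by positivity)] with N hwin hNH hgrow
  intro a0 ha0 ha0N
  obtain ⟨i, hi, hNa, hNb, κ, hκ0, hκ1, M', hM'⟩ := hwin
  obtain ⟨⟨hδ1, hδ2⟩, hp⟩ := hi0 i hi
  have hN1 : 1 ≤ N := by omega
  have hNpos : (0 : ℝ) < N := by exact_mod_cast hN1
  have ha0a : (1 / 3 : ℝ) * N ≤ a0 := by
    have : (N : ℝ) ≤ 3 * a0 := by exact_mod_cast ha0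
    linarith
  have ha01 : 1 ≤ a0 := by omega
  have ha0R : (1 : ℝ) ≤ a0 := by exact_mod_cast ha01
  set κ' : ℝ := κ + 1 / (2 * (i : ℝ) + 1) with hκ'
  set ρ : ℕ → ℝ := wt (δ i) κ κ' M' with hρ
  have hρ01 : ∀ m, ρ m = 0 ∨ ρ m = 1 := fun m => wt_01 _ _ _ _ _
  have hρb : ∀ n, 0 ≤ ρ n ∧ ρ n ≤ 1 := by
    intro n; rcases hρ01 n with h | h <;> rw [h] <;> norm_num
  set ρ' : ℕ → ℝ := fun n => 1 - ρ n with hρ'
  have hρb' : ∀ n, 0 ≤ ρ' n ∧ ρ' n ≤ 1 := by
    intro n; have := hρb n; simp only [hρ']; constructor <;> linarith [this.1, this.2]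
  -- the variation
  set V : ℝ := ∑ m ∈ Ico a0 (N + H), |ρ (m + 1) - ρ m| with hV
  have hV0 : 0 ≤ V := Finset.sum_nonneg fun _ _ => abs_nonneg _
  have hVle : V ≤ C1 * (δ i + 1) := by
    have h1 := wt_var (δ i) κ κ' (by linarith) M' a0 (N + H) ha01 (by omega)
    have h2 : Real.log ((N + H : ℕ) : ℝ) - Real.log a0 ≤ Real.log 6 := by
      rw [← Real.log_div (by positivity) (by positivity)]
      apply Real.log_le_log (by positivity)
      rw [div_le_iff₀ (by positivity)]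
      have : N + H ≤ 6 * a0 := by omega
      exact_mod_cast this
    have h4 : δ i * (Real.log ((N + H : ℕ) : ℝ) - Real.log a0) ≤ δ i * Real.log 6 :=
      mul_le_mul_of_nonneg_left h2 (by linarith)
    rw [hV]
    refine h1.trans ?_
    rw [hC1]
    nlinarith
  have hVsmall : ∑ n ∈ Ico a0 N, |ρ (n + 1) - ρ n| ≤ C1 * (δ i + 1) := by
    refine le_trans ?_ hVle
    apply Finset.sum_le_sum_of_subset_of_nonneg
    · intro x hx
      rw [Finset.mem_Ico] at hx ⊢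
      omega
    · intro _ _ _; exact abs_nonneg _
  have hVsmall' : ∑ n ∈ Ico a0 N, |ρ' (n + 1) - ρ' n| ≤ C1 * (δ i + 1) := by
    refine le_trans (le_of_eq ?_) hVsmall
    refine Finset.sum_congr rfl fun n _ => ?_
    simp only [hρ']
    rw [abs_sub_comm]
    congr 1; ring
  -- the local formula
  have hloc : ∀ m : ℕ, (1 / 3 : ℝ) * N ≤ m → m ≤ 2 * N →
      gl c δ m = ρ m * c i m + (1 - ρ m) * c (i + 1) m := fun m hm1 hm2 => hM' m hm1 hm2
  have habsc : ∀ i' m, |c i' m| ≤ 1 := by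
    intro i' m
    rcases hc i' m with h | h <;> rw [h] <;> norm_num
  -- step A
  set SA : ℝ := ∑ n ∈ Ioc a0 N, (ρ n * (w n * (∏ s ∈ S, c i (n + s) - κ0))
    + ρ' n * (w n * (∏ s ∈ S, c (i + 1) (n + s) - κ0))) with hSA
  have stepA : |∑ n ∈ Ioc a0 N, w n * (∏ s ∈ S, gl c δ (n + s) - κ0) - SA| ≤ ε / 4 * N := by
    rw [hSA, ← Finset.sum_sub_distrib]
    refine (Finset.abs_sum_le_sum_abs _ _).trans ?_
    set gm : ℝ := ε / 4 * N / (2 * H * C1 * (Real.log N + 1)) with hgm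
    have h1 : ∀ n ∈ Ioc a0 N, |w n * (∏ s ∈ S, gl c δ (n + s) - κ0)
        - (ρ n * (w n * (∏ s ∈ S, c i (n + s) - κ0)) + ρ' n * (w n * (∏ s ∈ S, c (i + 1) (n + s) - κ0)))|
        ≤ |w n| * (2 * ∑ j, |ρ (n + h j) - ρ n|) := by
      intro n hn
      rw [Finset.mem_Ioc] at hn
      have e : w n * (∏ s ∈ S, gl c δ (n + s) - κ0)
          - (ρ n * (w n * (∏ s ∈ S, c i (n + s) - κ0)) + ρ' n * (w n * (∏ s ∈ S, c (i + 1) (n + s) - κ0)))
          = w n * (∏ j, gl c δ (n + h j)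
            - (ρ n * ∏ j, c i (n + h j) + (1 - ρ n) * ∏ j, c (i + 1) (n + h j))) := by
        rw [hprod (fun s => gl c δ (n + s)), hprod (fun s => c i (n + s)), hprod (fun s => c (i + 1) (n + s))]
        simp only [hρ']; ring
      rw [e, abs_mul]
      apply mul_le_mul_of_nonneg_left _ (abs_nonneg _)
      apply mix_prod h (gl c δ) ρ (c i) (c (i + 1)) n hρ01 (habsc i) (habsc (i + 1))
      intro j
      apply hloc
      · have : (a0 : ℝ) ≤ (n + h j : ℕ) := by exact_mod_cast (by omega : a0 ≤ n + h j)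
        linarith
      · have := hHj j; omega
    refine (Finset.sum_le_sum h1).trans ?_
    -- multiply out
    rcases Nat.eq_zero_or_pos H with hH0 | hHpos
    · have hz : ∀ j, h j = 0 := fun j => by have := hHj j; omega
      have : ∀ n ∈ Ioc a0 N, |w n| * (2 * ∑ j, |ρ (n + h j) - ρ n|) = 0 := by
        intro n _
        simp [hz]
      rw [Finset.sum_eq_zero this]
      positivity
    · have hHR : (0 : ℝ) < H := by exact_mod_cast hHpos
      have hlogN : 0 ≤ Real.log N := Real.log_nonneg (by exact_mod_cast hN1)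
      have hden : 0 < 2 * H * C1 * (Real.log N + 1) := by positivity
      have hgn : ∀ n ∈ Ioc a0 N, |w n| ≤ gm := by
        intro n hn
        rw [hgm, le_div_iff₀ hden]
        exact hgrow n (Finset.mem_Ioc.mp hn).2
      have hgm0 : 0 ≤ gm := by rw [hgm]; positivity
      calc ∑ n ∈ Ioc a0 N, |w n| * (2 * ∑ j, |ρ (n + h j) - ρ n|)
          ≤ ∑ n ∈ Ioc a0 N, gm * (2 * ∑ j, |ρ (n + h j) - ρ n|) := by
            refine Finset.sum_le_sum fun n hn => ?_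
            exact mul_le_mul_of_nonneg_right (hgn n hn) (by positivity)
        _ = gm * (2 * ∑ j, ∑ n ∈ Ioc a0 N, |ρ (n + h j) - ρ n|) := by
            rw [← Finset.mul_sum, ← Finset.mul_sum, Finset.sum_comm]
        _ ≤ gm * (2 * (H * V)) := by
            apply mul_le_mul_of_nonneg_left _ hgm0
            apply mul_le_mul_of_nonneg_left _ (by norm_num)
            refine (Finset.sum_le_sum fun j _ => diff_shift ρ a0 N (h j) H (hHj j)).trans ?_
            rw [← Finset.sum_mul, hH]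
            push_cast
            exact le_rfl
        _ ≤ gm * (2 * H * C1 * (Real.log N + 1)) := by
            apply mul_le_mul_of_nonneg_left _ hgm0
            have h5 : V ≤ C1 * (Real.log N + 1) := by
              refine hVle.trans ?_
              apply mul_le_mul_of_nonneg_left _ hC10.le
              have := i_le_log hNa
              linarith
            have := mul_le_mul_of_nonneg_left h5 hHR.le
            linarith
        _ = ε / 4 * N := by rw [hgm]; field_simp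
  -- step B
  have hpart : ∀ i' : ℕ, (i' = i ∨ i' = i + 1) → ∀ b' : ℕ, a0 ≤ b' → b' ≤ N →
      ‖∑ n ∈ Ioc a0 b', ((w n * (∏ s ∈ S, c i' (n + s) - κ0) : ℝ) : ℂ)‖ ≤ 2 * (ε2 * N / ((i : ℝ) + 2)) := by
    intro i' hi' b' hb1 hb2
    have hx : ∀ x : ℕ, a0 ≤ x → x ≤ N → |∑ n ∈ Ioc 0 x, w n * (∏ s ∈ S, c i' (n + s) - κ0)|
        ≤ ε2 * N / ((i : ℝ) + 2) := by
      intro x hx1 hx2
      rw [le_div_iff₀ (by positivity)]
      have hxN : (x : ℝ) ≤ N := by exact_mod_cast hx2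
      exact (hp x (by omega) (by omega) i' hi').trans (mul_le_mul_of_nonneg_left hxN hε2pos.le)
    have e1 : ∑ n ∈ Ioc a0 b', w n * (∏ s ∈ S, c i' (n + s) - κ0)
        = ∑ n ∈ Ioc 0 b', w n * (∏ s ∈ S, c i' (n + s) - κ0)
          - ∑ n ∈ Ioc 0 a0, w n * (∏ s ∈ S, c i' (n + s) - κ0) := by
      rw [← Finset.sum_Ioc_consecutive _ (Nat.zero_le a0) hb1]
      ring
    rw [← Complex.ofReal_sum, Complex.norm_real, Real.norm_eq_abs, e1]
    have t1 := abs_sub (∑ n ∈ Ioc 0 b', w n * (∏ s ∈ S, c i' (n + s) - κ0))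
      (∑ n ∈ Ioc 0 a0, w n * (∏ s ∈ S, c i' (n + s) - κ0))
    have t2 := hx b' hb1 hb2
    have t3 := hx a0 le_rfl ha0N
    linarith
  have hbound : ∀ (θ : ℕ → ℝ), (∀ n, 0 ≤ θ n ∧ θ n ≤ 1) →
      (∑ n ∈ Ico a0 N, |θ (n + 1) - θ n| ≤ C1 * (δ i + 1)) → ∀ i' : ℕ, (i' = i ∨ i' = i + 1) →
      |∑ n ∈ Ioc a0 N, θ n * (w n * (∏ s ∈ S, c i' (n + s) - κ0))| ≤ ε / 4 * N := by
    intro θ hθ hvar i' hi'
    have h1 := abel θ hθ (fun n => ((w n * (∏ s ∈ S, c i' (n + s) - κ0) : ℝ) : ℂ)) a0 N ha0N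
      (2 * (ε2 * N / ((i : ℝ) + 2))) (hpart i' hi')
    have h2 : ∑ n ∈ Ioc a0 N, (θ n : ℂ) * ((w n * (∏ s ∈ S, c i' (n + s) - κ0) : ℝ) : ℂ)
        = ((∑ n ∈ Ioc a0 N, θ n * (w n * (∏ s ∈ S, c i' (n + s) - κ0)) : ℝ) : ℂ) := by
      push_cast; rfl
    rw [h2, Complex.norm_real, Real.norm_eq_abs] at h1
    refine h1.trans ?_
    have h3 : 1 + ∑ n ∈ Ico a0 N, |θ (n + 1) - θ n| ≤ (1 + C1) * ((i : ℝ) + 2) := by
      nlinarith [hδ2]
    calc (1 + ∑ n ∈ Ico a0 N, |θ (n + 1) - θ n|) * (2 * (ε2 * N / ((i : ℝ) + 2)))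
        ≤ (1 + C1) * ((i : ℝ) + 2) * (2 * (ε2 * N / ((i : ℝ) + 2))) :=
          mul_le_mul_of_nonneg_right h3 (by positivity)
      _ = ε / 4 * N := by
          rw [hε2]
          field_simp
          norm_num
  have hB1 := hbound ρ hρb hVsmall i (Or.inl rfl)
  have hB2 := hbound ρ' hρb' hVsmall' (i + 1) (Or.inr rfl)
  have hSAb : |SA| ≤ ε / 4 * N + ε / 4 * N := by
    rw [hSA, Finset.sum_add_distrib]
    exact (abs_add_le _ _).trans (add_le_add hB1 hB2)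
  have hfin : |∑ n ∈ Ioc a0 N, w n * (∏ s ∈ S, gl c δ (n + s) - κ0)| ≤ ε / 4 * N + (ε / 4 * N + ε / 4 * N) := by
    have e : ∑ n ∈ Ioc a0 N, w n * (∏ s ∈ S, gl c δ (n + s) - κ0)
        = (∑ n ∈ Ioc a0 N, w n * (∏ s ∈ S, gl c δ (n + s) - κ0) - SA) + SA := by ring
    rw [e]
    exact (abs_add_le _ _).trans (add_le_add stepA hSAb)
  refine hfin.trans ?_
  have : 0 ≤ ε * (N : ℝ) := by positivity
  linarith

/-- G2: correlations of the glued function -/
theorem gl_corr (c : ℕ → ℕ → ℝ) (δ : ℕ → ℝ) (hc : ∀ i n, c i n = 1 ∨ c i n = -1)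
    (slow : ∀ᶠ i : ℕ in atTop, 1 ≤ δ i ∧ δ i ≤ i) (w : ℕ → ℝ) (hw : Grow w) (S : Finset ℕ) (κ : ℝ)
    (hcor : ∀ ε : ℝ, 0 < ε → ∀ᶠ i : ℕ in atTop, ∀ x : ℕ, 4 ^ (i ^ 4) ≤ 3 * x →
      x ≤ 4 ^ ((i + 1) ^ 4 + i) → ∀ i' : ℕ, (i' = i ∨ i' = i + 1) →
      |∑ n ∈ Ioc 0 x, w n * (∏ s ∈ S, c i' (n + s) - κ)| * ((i : ℝ) + 2) ≤ ε * x) :
    ∀ ε : ℝ, 0 < ε → ∀ᶠ N : ℕ in atTop,
      |∑ n ∈ Ioc 0 N, w n * (∏ s ∈ S, gl c δ (n + s) - κ)| ≤ ε * N := by
  intro ε hε
  obtain ⟨N1, hN1⟩ := Filter.eventually_atTop.mp (gl_block c δ hc slow w hw S κ hcor (ε / 4) (by positivity))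
  set D : ℕ → ℝ := fun N => ∑ n ∈ Ioc 0 N, w n * (∏ s ∈ S, gl c δ (n + s) - κ) with hD
  set C0 : ℝ := ∑ N ∈ range (N1 + 2), |D N| with hC0
  have hC00 : 0 ≤ C0 := Finset.sum_nonneg fun _ _ => abs_nonneg _
  have key : ∀ N : ℕ, |D N| ≤ ε / 4 * (2 * N) + C0 := by
    intro N
    induction N using Nat.strong_induction_on with
    | _ N ih =>
      by_cases hN : N < N1 + 2
      · have h1 : |D N| ≤ C0 := Finset.single_le_sum (f := fun N => |D N|)
          (fun _ _ => abs_nonneg _) (Finset.mem_range.mpr hN)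
        have h2 : 0 ≤ ε / 4 * (2 * (N : ℝ)) := by positivity
        linarith
      · push Not at hN
        have ih' := ih (N / 2) (by omega)
        have hb := hN1 N (by omega) (N / 2) (by omega) (by omega)
        have e2 : D N = D (N / 2) + ∑ n ∈ Ioc (N / 2) N, w n * (∏ s ∈ S, gl c δ (n + s) - κ) := by
          simp only [hD]
          exact (Finset.sum_Ioc_consecutive _ (Nat.zero_le _) (by omega)).symm
        rw [e2]
        refine (abs_add_le _ _).trans ?_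
        have h3 : (2 : ℝ) * ((N / 2 : ℕ) : ℝ) ≤ N := by
          have : 2 * (N / 2) ≤ N := by omega
          exact_mod_cast this
        have h4 := mul_le_mul_of_nonneg_left h3 (show 0 ≤ ε / 4 by positivity)
        linarith
  filter_upwards [(tendsto_natCast_atTop_atTop (R := ℝ)).eventually_ge_atTop (2 * C0 / ε)]
    with N hN
  have h1 := key N
  rw [div_le_iff₀ hε] at hN
  show |D N| ≤ _
  linarith

end Pool.Agent.Helper8.Classify
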